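import Mathlib

set_option autoImplicit false

namespace Pool.Agent.P.MP_8de615_co

/-- The set `C_n` of `n`-cycles: permutations of `Fin n` that act as one single cycle on all
points. -/
def Cycles (n : ℕ) : Type := {γ : Equiv.Perm (Fin n) // γ.IsCycleOn Set.univ}

/-- The simple graph `Γ_n` on `C_n`: distinct `γ₁`, `γ₂` are adjacent when `γ₂ = s γ₁ s` for an
adjacent transposition `s = (i, i + 1)`. -/
def Gamma (n : ℕ) : SimpleGraph (Cycles n) :=
  SimpleGraph.fromRel fun γ₁ γ₂ => ∃ i j : Fin n, (j : ℕ) = i + 1 ∧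
    γ₂.1 = Equiv.swap i j * γ₁.1 * Equiv.swap i j

end Pool.Agent.P.MP_8de615_co
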