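import Mathlib
import Pool.Agent.P.MP_8de615_co.Ineq

/-! The potential function and its one-step inequality. -/

set_option autoImplicit false

namespace Pool.Agent.P.MP_8de615_co

open Real Set

/-- The triangle. -/
def Tri : Set (ℝ × ℝ) := {x | x.1 ≤ 1 ∧ x.2 ≤ 1 ∧ 1 ≤ x.1 + x.2}

theorem convex_Tri : Convex ℝ Tri := by
  intro x hx y hy a b ha hb hab
  obtain ⟨h1, h2, h3⟩ := hx
  obtain ⟨h4, h5, h6⟩ := hy
  refine ⟨?_, ?_, ?_⟩ <;> simp only [Prod.fst_add, Prod.snd_add, Prod.smul_fst, Prod.smul_snd,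
    smul_eq_mul] <;> nlinarith

theorem compact_Tri : IsCompact Tri := by
  refine (isCompact_Icc (a := ((0, 0) : ℝ × ℝ)) (b := (1, 1))).of_isClosed_subset ?_ ?_
  · exact (isClosed_le continuous_fst continuous_const).inter
      ((isClosed_le continuous_snd continuous_const).inter
        (isClosed_le continuous_const (continuous_fst.add continuous_snd)))
  · rintro x ⟨h1, h2, h3⟩
    exact ⟨⟨by dsimp only; linarith, by dsimp only; linarith⟩, h1, h2⟩

theorem taylor (g g' : ℝ → ℝ → ℝ) (hd : ∀ p q, (p, q) ∈ Tri → HasDerivAt (g p) (g' p q) q)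
    (hc : ContDiffOn ℝ 1 (fun x : ℝ × ℝ => g' x.1 x.2) Tri) :
    ∃ C : ℝ, 0 ≤ C ∧ ∀ p q h, (p, q) ∈ Tri → (p, q + h) ∈ Tri → 0 ≤ h →
      |g p (q + h) - g p q - h * g' p (q + h)| ≤ C * h ^ 2 ∧ |g' p (q + h)| ≤ C := by
  obtain ⟨K, hK⟩ := hc.exists_lipschitzOnWith one_ne_zero convex_Tri compact_Tri
  obtain ⟨B, hB⟩ := compact_Tri.exists_bound_of_continuousOn hc.continuousOn
  refine ⟨K + |B|, by positivity, fun p q h h1 h2 h0 => ⟨?_, ?_⟩⟩
  · have hm : ∀ s ∈ Icc q (q + h), (p, s) ∈ Tri := fun s hs =>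
      ⟨h1.1, hs.2.trans h2.2.1, h1.2.2.trans (by dsimp only; linarith [hs.1])⟩
    have := norm_image_sub_le_of_norm_deriv_le_segment' (a := q) (b := q + h)
      (f := fun s => g p s - s * g' p (q + h)) (f' := fun s => g' p s - g' p (q + h))
      (C := K * h) (fun s hs => (((hd p s (hm s hs)).sub
        ((hasDerivAt_id s).mul_const _)).congr_deriv (by simp)).hasDerivWithinAt)
      (fun s hs => by
        have := hK.dist_le_mul _ (hm s ⟨hs.1, hs.2.le⟩) _ h2
        rw [Prod.dist_eq, dist_self, Real.dist_eq, Real.dist_eq] at this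
        refine this.trans (mul_le_mul_of_nonneg_left (max_le h0 ?_) K.2)
        rw [abs_le]
        constructor <;> linarith [hs.1, hs.2])
      (q + h) ⟨by linarith, le_rfl⟩
    rw [Real.norm_eq_abs] at this
    calc _ = |g p (q + h) - (q + h) * g' p (q + h) - (g p q - q * g' p (q + h))| := by ring_nf
      _ ≤ K * h * (q + h - q) := this
      _ ≤ _ := by nlinarith [abs_nonneg B, sq_nonneg h]
  · have := hB _ h2
    rw [Real.norm_eq_abs] at this
    have h3 : (0 : ℝ) ≤ K := K.2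
    linarith [le_abs_self B]

/-- The multiplier. -/
noncomputable def al (p q : ℝ) : ℝ := Nn p q / (1 + p) ^ 2

/-- The area potential. -/
noncomputable def Fn (p q : ℝ) : ℝ := (π / 4 + arctan ((q - p) / (p + q))) / 2 + Fp p q

/-- The full potential. -/
noncomputable def Phi (D p q a b : ℝ) : ℝ := Fn p q - al p q * a + al q p * b - D * La p q

theorem Phi_swap (D p q a b : ℝ) : Phi D q p b a = π / 4 + p * q - Phi D p q a b := by
  have : arctan ((p - q) / (q + p)) = -arctan ((q - p) / (p + q)) := by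
    rw [← arctan_neg]
    congr 1
    ring
  simp only [Phi, Fn, this, Fp, La]
  ring

theorem Phi_start (D : ℝ) : Phi D 1 0 0 0 = D := by
  have : arctan ((0 - 1) / (1 + 0)) = -(π / 4) := by
    rw [← arctan_one, ← arctan_neg]
    norm_num
  simp only [Phi, Fn, this, Fp, La]
  ring

theorem Phi_end (D : ℝ) : Phi D 0 1 0 0 = π / 4 - D := by
  rw [Phi_swap, Phi_start]
  ring

theorem key {p q : ℝ} (h : (p, q) ∈ Tri) : ∃ W : ℝ, 0 ≤ W ∧ W ≤ Lq p q ∧
    p / (2 * (p ^ 2 + q ^ 2)) + Fq p q - p ≤ W * ((1 - p ^ 2 - q ^ 2) / 2) ∧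
    W ≤ (2 * Nn q p - Np q p * (1 + q)) / (1 + q) ^ 3 ∧
    q * (W - Nq p q / (1 + p) ^ 2) ≤ al p q ∧
    (1 - q) * (W - Nq p q / (1 + p) ^ 2) ≤ 1 - al p q ∧ 0 ≤ al p q ∧ al p q ≤ 1 := by
  obtain ⟨hp, hq, hs⟩ := h
  dsimp only at hp hq hs
  have p0 : 0 ≤ p := by linarith
  have q0 : 0 ≤ q := by linarith
  have r0 : 0 < p ^ 2 + q ^ 2 := by nlinarith [sq_nonneg (p - q)]
  have e : p / (2 * (p ^ 2 + q ^ 2)) + Fq p q - p =
      wn p q / (p ^ 2 + q ^ 2) * ((1 - p ^ 2 - q ^ 2) / 2) := by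
    field_simp
    simp only [Fq, wn]
    ring
  have w0 : 0 ≤ wn p q / (p ^ 2 + q ^ 2) := div_nonneg (ineq_wN hp hq hs) r0.le
  have a0 : 0 ≤ al p q := div_nonneg (ineq_a0 hp hq hs) (by positivity)
  have a1 : al p q ≤ 1 := by
    rw [al, div_le_one (by positivity)]
    linarith [ineq_a1 hp hq hs]
  rcases le_total 0 (1 - p ^ 2 - q ^ 2) with hl | hl
  · refine ⟨wn p q / (p ^ 2 + q ^ 2), w0, ?_, e.le, ?_, ?_, ?_, a0, a1⟩
    · rw [div_le_iff₀ r0]
      linarith [ineq_L hp hq hs hl]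
    · rw [div_le_div_iff₀ r0 (by positivity)]
      linarith [ineq_V hq hp (by linarith) (by linarith)]
    · have := div_nonneg (ineq_H1 hp hq hs hl) (by positivity : 0 ≤ (p ^ 2 + q ^ 2) * (1 + p) ^ 2)
      rw [← sub_nonneg]
      refine this.trans_eq ?_
      rw [al]
      field_simp
      ring
    · have := div_nonneg (ineq_H2 hp hq hs hl) (by positivity : 0 ≤ (p ^ 2 + q ^ 2) * (1 + p) ^ 2)
      rw [← sub_nonneg]
      refine this.trans_eq ?_
      rw [al]
      field_simp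
      ring
  · refine ⟨0, le_rfl, ineq_oL hp hq hs, ?_, div_nonneg (ineq_oV hq hp (by linarith))
      (by positivity), ?_, ?_, a0, a1⟩
    · rw [e, zero_mul]
      exact mul_nonpos_of_nonneg_of_nonpos w0 (by linarith)
    · have := div_nonneg (ineq_oH1 hp hq hs) (by positivity : 0 ≤ (1 + p) ^ 2)
      rw [← sub_nonneg]
      refine this.trans_eq ?_
      rw [al]
      field_simp
      ring
    · have := div_nonneg (ineq_oH2 hp hq hs) (by positivity : 0 ≤ (1 + p) ^ 2)
      rw [← sub_nonneg]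
      refine this.trans_eq ?_
      rw [al]
      field_simp
      ring

theorem step : ∃ C : ℝ, 0 ≤ C ∧ ∀ D p q h a a' b k m : ℝ, (p, q) ∈ Tri → (p, q + h) ∈ Tri →
    0 ≤ h → 0 ≤ D → D ≤ 4 → 0 ≤ k → k ≤ 2 → 0 ≤ m → m ≤ 2 → 0 ≤ a' → a' ≤ 4 → 0 ≤ b → b ≤ 4 →
    a' - a = h * (m - k) → a' ≤ (q + h) * m + (1 - (q + h)) * k →
    (1 - p ^ 2 - (q + h) ^ 2) / 2 - D - 2 * h ≤ a' + b →
    Phi D p (q + h) a' b - Phi D p q a b ≤ h * (k + p) + C * h ^ 2 := by
  have n1 : ∀ x ∈ Tri, 1 + x.1 ≠ 0 := fun x ⟨_, h2, h3⟩ => by linarith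
  have n2 : ∀ x ∈ Tri, 1 + x.2 ≠ 0 := fun x ⟨h1, _, h3⟩ => by linarith
  have n3 : ∀ x ∈ Tri, x.1 ^ 2 + x.2 ^ 2 ≠ 0 := fun x ⟨_, _, h3⟩ => by
    nlinarith [sq_nonneg (x.1 - x.2)]
  obtain ⟨C1, c1, t1⟩ := taylor Fn (fun p q => p / (2 * (p ^ 2 + q ^ 2)) + Fq p q)
    (fun p q h => by
      have hs : p + q ≠ 0 := by linarith [h.2.2]
      have hr := n3 _ h
      have d := ((((hasDerivAt_id q).sub_const p).div ((hasDerivAt_id q).const_add p)
        hs).arctan.const_add (π / 4)).div_const 2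
      refine (d.add (deriv_Fq p q)).congr_deriv ?_
      simp only [id, Pi.div_apply]
      have : (p + q) ^ 2 + (q - p) ^ 2 ≠ 0 := by positivity
      congr 1
      field_simp
      ring)
    (by
      unfold Fq
      refine ContDiffOn.add (ContDiffOn.div (by fun_prop) (by fun_prop)
        fun x hx => mul_ne_zero two_ne_zero (n3 x hx)) (by fun_prop))
  obtain ⟨C2, c2, t2⟩ := taylor al (fun p q => Nq p q / (1 + p) ^ 2)
    (fun p q _ => (deriv_Nq p q).div_const _)
    (by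
      unfold Nq
      exact ContDiffOn.div (by fun_prop) (by fun_prop) fun x hx => pow_ne_zero _ (n1 x hx))
  obtain ⟨C3, c3, t3⟩ := taylor (fun p q => al q p)
    (fun p q => -((2 * Nn q p - Np q p * (1 + q)) / (1 + q) ^ 3))
    (fun p q h => by
      have hq : 1 + q ≠ 0 := n2 _ h
      refine ((deriv_Np q p).div (((hasDerivAt_id q).const_add 1).pow 2)
        (pow_ne_zero _ hq)).congr_deriv ?_
      simp only [id, Pi.pow_apply]
      field_simp
      ring)
    (by
      unfold Nn Np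
      exact (ContDiffOn.div (by fun_prop) (by fun_prop) fun x hx => pow_ne_zero _ (n2 x hx)).neg)
  obtain ⟨C4, c4, t4⟩ := taylor La Lq (fun p q _ => deriv_Lq p q) (by unfold Lq; fun_prop)
  refine ⟨C1 + 8 * C2 + 4 * C3 + 6 * C4, by positivity, ?_⟩
  intro D p q h a a' b k m h1 h2 h0 D0 D4 k0 k2 m0 m2 a0 a4 b0 b4 ha hloc hcon
  have hh : h ≤ 1 := by linarith [h1.1, h1.2.2, h2.2.1]
  obtain ⟨W, w0, w1, w2, w3, w4, w5, w6, w7⟩ := key h2
  have s1 := (abs_le.1 (t1 p q h h1 h2 h0).1).2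
  have s2 := (t2 p q h h1 h2 h0).1
  have s2' := (t2 p q h h1 h2 h0).2
  have s3 := (abs_le.1 (t3 p q h h1 h2 h0).1).2
  have s4 := (abs_le.1 (t4 p q h h1 h2 h0).1).1
  have s4' := (abs_le.1 (t4 p q h h1 h2 h0).2).2
  set q' := q + h with hq'
  set aq := Nq p q' / (1 + p) ^ 2 with haq
  set bq := (2 * Nn q' p - Np q' p * (1 + q')) / (1 + q') ^ 3 with hbq
  set fq := p / (2 * (p ^ 2 + q' ^ 2)) + Fq p q' with hfq
  have loc : (W - aq) * a' ≤ (1 - al p q') * k + al p q' * m := by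
    rcases le_total 0 (W - aq) with hw | hw
    · calc _ ≤ (W - aq) * (q' * m + (1 - q') * k) := mul_le_mul_of_nonneg_left hloc hw
        _ = (1 - q') * (W - aq) * k + q' * (W - aq) * m := by ring
        _ ≤ _ := by gcongr
    · have : 0 ≤ (1 - al p q') * k + al p q' * m := by
        have : 0 ≤ 1 - al p q' := by linarith
        positivity
      nlinarith
  have main : fq - al p q' * (m - k) - aq * a' - bq * b - D * Lq p q' ≤ k + p + 2 * C4 * h := by
    have e1 : W * b ≤ bq * b := mul_le_mul_of_nonneg_right w3 b0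
    have e2 := mul_le_mul_of_nonneg_left hcon w0
    have e3 : D * W ≤ D * Lq p q' := mul_le_mul_of_nonneg_left w1 D0
    have e4 : W * h ≤ C4 * h := mul_le_mul_of_nonneg_right (w1.trans s4') h0
    nlinarith
  have d1 : |al p q' - al p q| ≤ 2 * C2 * h := by
    have : |h * aq| ≤ h * C2 := by rw [abs_mul, abs_of_nonneg h0]; gcongr
    have h3 := abs_add_le (al p q' - al p q - h * aq) (h * aq)
    rw [sub_add_cancel] at h3
    nlinarith [mul_le_mul_of_nonneg_left hh (mul_nonneg c2 h0)]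
  have d2 : (al p q' - al p q) * (m - k) ≤ 2 * C2 * h * 2 := by
    refine (le_abs_self _).trans ?_
    rw [abs_mul]
    exact mul_le_mul d1 (by rw [abs_le]; constructor <;> linarith) (abs_nonneg _) (by positivity)
  have d3 : -(C2 * h ^ 2) * 4 ≤ (al p q' - al p q - h * aq) * a' := by
    have := mul_le_mul_of_nonneg_right (abs_le.1 s2).1 a0
    nlinarith [mul_nonneg c2 (sq_nonneg h)]
  have d4 : (al q' p - al q p - h * -bq) * b ≤ C3 * h ^ 2 * 4 := by
    have := mul_le_mul_of_nonneg_right s3 b0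
    nlinarith [mul_nonneg c3 (sq_nonneg h)]
  have d5 : -(C4 * h ^ 2) * 4 ≤ (La p q' - La p q - h * Lq p q') * D := by
    have := mul_le_mul_of_nonneg_right s4 D0
    nlinarith [mul_nonneg c4 (sq_nonneg h)]
  have e : a = a' - h * (m - k) := by linarith
  have d6 := mul_le_mul_of_nonneg_left main h0
  have d7 := mul_le_mul_of_nonneg_left d2 h0
  simp only [Phi]
  rw [e]
  nlinarith

end Pool.Agent.P.MP_8de615_co
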