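import Mathlib
import Pool.Agent.P.MP_8de615_co.Step

/-! The upper bound for one word satisfying the ballot condition. -/

set_option autoImplicit false

namespace Pool.Agent.P.MP_8de615_co

open Real Finset

/-- The scaled potential. -/
noncomputable def Psi (L D p q a b : ℝ) : ℝ :=
  L ^ 2 * Phi (D / L ^ 2) (p / L) (q / L) (a / L ^ 2) (b / L ^ 2)

theorem Psi_swap {L : ℝ} (hL : L ≠ 0) (D p q a b : ℝ) :
    Psi L D q p b a = π / 4 * L ^ 2 + p * q - Psi L D p q a b := by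
  simp only [Psi]
  rw [Phi_swap]
  field_simp

theorem stepL : ∃ C : ℝ, 0 ≤ C ∧ ∀ L D p q h a a' b k m : ℝ, 1 ≤ L → p ≤ L → q + h ≤ L →
    L ≤ p + q → 0 ≤ h → h ≤ 1 → 0 ≤ D → D ≤ 4 * L ^ 2 → 0 ≤ k → k ≤ 2 * L → 0 ≤ m → m ≤ 2 * L →
    0 ≤ a' → a' ≤ 4 * L ^ 2 → 0 ≤ b → b ≤ 4 * L ^ 2 → a' - a = h * (m - k) →
    a' ≤ (q + h) * m + (L - (q + h)) * k → (L ^ 2 - p ^ 2 - (q + h) ^ 2) / 2 - D ≤ a' + b →
    Psi L D p (q + h) a' b - Psi L D p q a b ≤ h * (k + p) + C := by
  obtain ⟨C, C0, hC⟩ := step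
  refine ⟨C, C0, ?_⟩
  intro L D p q h a a' b k m hL hp hq hs h0 h1 D0 D4 k0 k2 m0 m2 a0 a4 b0 b4 ha hloc hcon
  have L0 : 0 < L := by linarith
  have L2 : 0 < L ^ 2 := by positivity
  have t1 : (p / L, q / L) ∈ Tri := by
    refine ⟨(div_le_one L0).2 hp, (div_le_one L0).2 (by linarith), ?_⟩
    dsimp only
    rw [← add_div, one_le_div L0]
    exact hs
  have t2 : (p / L, q / L + h / L) ∈ Tri := by
    refine ⟨(div_le_one L0).2 hp, ?_, ?_⟩
    · dsimp only
      rw [← add_div, div_le_one L0]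
      exact hq
    · dsimp only
      rw [← add_div, ← add_div, one_le_div L0]
      linarith
  have := hC (D / L ^ 2) (p / L) (q / L) (h / L) (a / L ^ 2) (a' / L ^ 2) (b / L ^ 2) (k / L)
    (m / L) t1 t2 (by positivity) (by positivity) ((div_le_iff₀ L2).2 D4) (by positivity)
    ((div_le_iff₀ L0).2 k2) (by positivity) ((div_le_iff₀ L0).2 m2) (by positivity)
    ((div_le_iff₀ L2).2 a4) (by positivity) ((div_le_iff₀ L2).2 b4)
    (by rw [← sub_div, ha]; field_simp)
    (by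
      refine (div_le_div_of_nonneg_right hloc L2.le).trans_eq ?_
      field_simp)
    (by
      have h2 := div_le_div_of_nonneg_right hcon L2.le
      have h3 : 0 ≤ h / L := by positivity
      have e : ((L ^ 2 - p ^ 2 - (q + h) ^ 2) / 2 - D) / L ^ 2 =
          (1 - (p / L) ^ 2 - (q / L + h / L) ^ 2) / 2 - D / L ^ 2 := by field_simp
      rw [e, add_div] at h2
      linarith)
  have h2 := mul_le_mul_of_nonneg_left this L2.le
  have e : L ^ 2 * (h / L * (k / L + p / L) + C * (h / L) ^ 2) = h * (k + p) + C * h ^ 2 := by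
    field_simp
  rw [e, mul_sub, ← add_div] at h2
  have h3 : C * h ^ 2 ≤ C := by nlinarith [mul_nonneg C0 h0]
  simp only [Psi]
  linarith

/-- Indicator. -/
def J (P : Prop) [Decidable P] : ℝ := if P then 1 else 0

theorem J_nonneg (P : Prop) [Decidable P] : 0 ≤ J P := by
  unfold J
  split_ifs <;> norm_num

theorem J_le (P : Prop) [Decidable P] : J P ≤ 1 := by
  unfold J
  split_ifs <;> norm_num

theorem J_pos {P : Prop} [Decidable P] (h : P) : J P = 1 := if_pos h

theorem J_neg {P : Prop} [Decidable P] (h : ¬P) : J P = 0 := if_neg h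

theorem count {n : ℕ} {Y : ℕ → ℕ} (hi : Set.InjOn Y (range n)) (hY : ∀ i < n, Y i < n)
    (f : ℕ → ℝ) : ∑ j ∈ range n, f (Y j) = ∑ v ∈ range n, f v := by
  have : (range n).image Y = range n := by
    refine eq_of_subset_of_card_le (fun v hv => ?_) (card_image_of_injOn hi).ge
    obtain ⟨i, hi, rfl⟩ := mem_image.1 hv
    exact mem_range.2 (hY i (mem_range.1 hi))
  rw [← sum_image hi, this]

theorem sum_J_lt {n c : ℕ} (hc : c ≤ n) : ∑ v ∈ range n, J (v < c) = c := by
  rw [← sum_range_add_sum_Ico _ hc, sum_congr rfl fun v hv => J_pos (mem_range.1 hv),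
    sum_congr rfl fun v hv => J_neg (not_lt.2 (mem_Ico.1 hv).1)]
  simp

theorem count_lt {n : ℕ} {Y : ℕ → ℕ} (hi : Set.InjOn Y (range n)) (hY : ∀ i < n, Y i < n)
    {c : ℕ} (hc : c ≤ n) : ∑ j ∈ range n, J (Y j < c) = c := by
  rw [count hi hY fun v => J (v < c), sum_J_lt hc]

theorem split3 {n t : ℕ} (ht : t < n) (f : ℕ → ℝ) :
    ∑ j ∈ range n, f j = ∑ j ∈ range t, f j + f t + ∑ j ∈ Ico (t + 1) n, f j := by
  rw [← sum_range_add_sum_Ico _ (Nat.succ_le_of_lt ht), sum_range_succ]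

theorem cross {n t : ℕ} (ht : t < n) (R : ℕ → ℕ → ℝ) :
    ∑ i ∈ range (t + 1), ∑ j ∈ Ico (t + 1) n, R i j = ∑ i ∈ range t, ∑ j ∈ Ico t n, R i j -
      ∑ i ∈ range t, R i t + ∑ j ∈ Ico (t + 1) n, R t j := by
  rw [sum_range_succ, ← sum_sub_distrib]
  congr 1
  refine sum_congr rfl fun i _ => ?_
  rw [sum_eq_sum_Ico_succ_bot ht]
  ring

theorem sum_J_le {n : ℕ} {s : Finset ℕ} (hs : s ⊆ range n) (P : ℕ → Prop) [DecidablePred P] :
    ∑ j ∈ s, J (P j) ≤ n := by
  calc _ ≤ ∑ _j ∈ s, (1 : ℝ) := sum_le_sum fun j _ => J_le _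
    _ = s.card := by simp
    _ ≤ n := by exact_mod_cast (card_le_card hs).trans_eq (card_range n)

theorem Ico_sub (n t : ℕ) : Ico t n ⊆ range n := fun _ h => mem_range.2 (mem_Ico.1 h).2

theorem cross_le {n t : ℕ} (ht : t ≤ n) (P : ℕ → ℕ → Prop) [∀ i j, Decidable (P i j)] :
    ∑ i ∈ range t, ∑ j ∈ Ico t n, J (P i j) ≤ (n : ℝ) ^ 2 := by
  calc _ ≤ ∑ _i ∈ range t, (n : ℝ) := sum_le_sum fun i _ => sum_J_le (Ico_sub n t) _
    _ = t * n := by simp
    _ ≤ n * n := by gcongr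
    _ = _ := by ring

/-- Small values used. -/
def qq (A : ℕ) (Y : ℕ → ℕ) (t : ℕ) : ℝ := ∑ i ∈ range t, J (Y i < A)

/-- Large values not yet used. -/
def pp (n A : ℕ) (Y : ℕ → ℕ) (t : ℕ) : ℝ := ∑ j ∈ Ico t n, J (A ≤ Y j)

/-- Crossing increasing pairs of small values. -/
def aa (n A : ℕ) (Y : ℕ → ℕ) (t : ℕ) : ℝ :=
  ∑ i ∈ range t, ∑ j ∈ Ico t n, J (Y i < Y j ∧ Y j < A)

/-- Crossing increasing pairs of large values. -/
def bb (n A : ℕ) (Y : ℕ → ℕ) (t : ℕ) : ℝ :=
  ∑ i ∈ range t, ∑ j ∈ Ico t n, J (A ≤ Y i ∧ Y i < Y j)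

/-- Later larger values. -/
def ll (n : ℕ) (Y : ℕ → ℕ) (t : ℕ) : ℝ := ∑ j ∈ Ico (t + 1) n, J (Y t < Y j)

section
variable {n A : ℕ} {Y : ℕ → ℕ} (hi : Set.InjOn Y (range n)) (hY : ∀ i < n, Y i < n) (hA : A ≤ n)
include hi hY hA

theorem qq_rest {t : ℕ} (ht : t ≤ n) : ∑ j ∈ Ico t n, J (Y j < A) = A - qq A Y t := by
  rw [← count_lt hi hY hA, ← sum_range_add_sum_Ico _ ht, qq]
  ring

theorem pp_rest {t : ℕ} (ht : t ≤ n) :
    ∑ i ∈ range t, J (A ≤ Y i) = n - A - pp n A Y t := by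
  have : ∑ i ∈ range n, J (A ≤ Y i) = ∑ i ∈ range n, (1 - J (Y i < A)) :=
    sum_congr rfl fun i _ => by
      unfold J
      split_ifs <;> first | omega | norm_num
  rw [sum_sub_distrib, count_lt hi hY hA, ← sum_range_add_sum_Ico _ ht] at this
  simp only [sum_const, card_range, nsmul_eq_mul, mul_one] at this
  rw [pp]
  linarith

theorem nstep {t : ℕ} (ht : t < n) (h : Y t < A) : ∃ k m : ℝ, 0 ≤ k ∧ k ≤ n ∧ 0 ≤ m ∧ m ≤ n ∧
    qq A Y (t + 1) = qq A Y t + 1 ∧ pp n A Y (t + 1) = pp n A Y t ∧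
    aa n A Y (t + 1) - aa n A Y t = m - k ∧ bb n A Y (t + 1) = bb n A Y t ∧
    aa n A Y (t + 1) ≤ qq A Y (t + 1) * m + (A - qq A Y (t + 1)) * k ∧
    m - k = A - qq A Y t - 1 - Y t ∧ ll n Y t = m + pp n A Y t := by
  have hq : qq A Y (t + 1) = qq A Y t + 1 := by rw [qq, sum_range_succ, J_pos h, qq]
  have hp : pp n A Y (t + 1) = pp n A Y t := by
    rw [pp, pp, sum_eq_sum_Ico_succ_bot ht, J_neg (not_le.2 h), zero_add]
  refine ⟨∑ i ∈ range t, J (Y i < Y t), ∑ j ∈ Ico (t + 1) n, J (Y t < Y j ∧ Y j < A),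
    sum_nonneg fun _ _ => J_nonneg _, sum_J_le (range_subset_range.2 ht.le) _,
    sum_nonneg fun _ _ => J_nonneg _, sum_J_le (Ico_sub _ _) _, hq, hp, ?_, ?_, ?_, ?_, ?_⟩
  · rw [aa, cross ht, aa]
    have : ∑ i ∈ range t, J (Y i < Y t ∧ Y t < A) = ∑ i ∈ range t, J (Y i < Y t) :=
      sum_congr rfl fun i _ => by simp only [J, h, and_true]
    rw [this]
    ring
  · rw [bb, cross ht, bb, sum_eq_zero (s := range t) fun i _ => J_neg (by omega),
      sum_eq_zero (s := Ico (t + 1) n) fun i _ => J_neg (by omega)]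
    ring
  · have : ∑ i ∈ range t, J (Y i < Y t) = ∑ i ∈ range (t + 1), J (Y i < Y t) := by
      rw [sum_range_succ, J_neg (lt_irrefl _), add_zero]
    rw [← qq_rest hi hY hA ht, this, mul_comm (∑ j ∈ Ico (t + 1) n, J (Y j < A)), qq,
      sum_mul_sum, sum_mul_sum, ← sum_add_distrib]
    refine sum_le_sum fun i _ => ?_
    rw [← sum_add_distrib]
    refine sum_le_sum fun j _ => ?_
    unfold J
    split_ifs <;> first | omega | norm_num
  · have h1 := count_lt hi hY (hY t ht).le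
    rw [split3 ht, J_neg (lt_irrefl _)] at h1
    have h2 : ∑ j ∈ Ico (t + 1) n, J (Y j < Y t) + ∑ j ∈ Ico (t + 1) n, J (Y t < Y j ∧ Y j < A) =
        ∑ j ∈ Ico (t + 1) n, J (Y j < A) := by
      rw [← sum_add_distrib]
      refine sum_congr rfl fun j hj => ?_
      have : Y j ≠ Y t := fun e => by
        have := hi (mem_coe.2 (Ico_sub _ _ hj)) (mem_coe.2 (mem_range.2 ht)) e
        have := (mem_Ico.1 hj).1
        omega
      unfold J
      split_ifs <;> first | omega | norm_num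
    rw [qq_rest hi hY hA ht, hq] at h2
    linarith
  · rw [← hp, ll, pp, ← sum_add_distrib]
    refine sum_congr rfl fun j _ => ?_
    unfold J
    split_ifs <;> first | omega | norm_num

theorem pstep {t : ℕ} (ht : t < n) (h : A ≤ Y t) : ∃ k m : ℝ, 0 ≤ k ∧ k ≤ n ∧ 0 ≤ m ∧ m ≤ n ∧
    qq A Y (t + 1) = qq A Y t ∧ pp n A Y t = pp n A Y (t + 1) + 1 ∧
    aa n A Y (t + 1) = aa n A Y t ∧ bb n A Y t - bb n A Y (t + 1) = m - k ∧
    bb n A Y t ≤ pp n A Y t * m + (n - A - pp n A Y t) * k ∧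
    k - m = A - 1 - Y t + pp n A Y t ∧ ll n Y t = k := by
  have hq : qq A Y (t + 1) = qq A Y t := by
    rw [qq, sum_range_succ, J_neg (not_lt.2 h), qq, add_zero]
  have hp : pp n A Y t = pp n A Y (t + 1) + 1 := by
    rw [pp, pp, sum_eq_sum_Ico_succ_bot ht, J_pos h, add_comm]
  refine ⟨ll n Y t, ∑ i ∈ range t, J (A ≤ Y i ∧ Y i < Y t),
    sum_nonneg fun _ _ => J_nonneg _, sum_J_le (Ico_sub _ _) _,
    sum_nonneg fun _ _ => J_nonneg _, sum_J_le (range_subset_range.2 ht.le) _, hq, hp,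
    ?_, ?_, ?_, ?_, rfl⟩
  · rw [aa, cross ht, aa, sum_eq_zero (s := range t) fun i _ => J_neg (by omega),
      sum_eq_zero (s := Ico (t + 1) n) fun i _ => J_neg (by omega)]
    ring
  · rw [bb, bb, cross ht, ll]
    have : ∑ j ∈ Ico (t + 1) n, J (A ≤ Y t ∧ Y t < Y j) = ∑ j ∈ Ico (t + 1) n, J (Y t < Y j) :=
      sum_congr rfl fun i _ => by simp only [J, h, true_and]
    rw [this]
    ring
  · have : ll n Y t = ∑ j ∈ Ico t n, J (Y t < Y j) := by
      rw [ll, sum_eq_sum_Ico_succ_bot ht, J_neg (lt_irrefl _), zero_add]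
    rw [← pp_rest hi hY hA ht.le, this, mul_comm (pp n A Y t), pp,
      sum_mul_sum, sum_mul_sum, ← sum_add_distrib]
    refine sum_le_sum fun i _ => ?_
    rw [← sum_add_distrib]
    refine sum_le_sum fun j _ => ?_
    unfold J
    split_ifs <;> first | omega | norm_num
  · have h1 := count_lt hi hY (hY t ht).le
    rw [split3 ht, J_neg (lt_irrefl _)] at h1
    have h2 : ∑ j ∈ Ico (t + 1) n, J (Y j < Y t) + ll n Y t = ∑ _j ∈ Ico (t + 1) n, (1 : ℝ) := by
      rw [ll, ← sum_add_distrib]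
      refine sum_congr rfl fun j hj => ?_
      have : Y j ≠ Y t := fun e => by
        have := hi (mem_coe.2 (Ico_sub _ _ hj)) (mem_coe.2 (mem_range.2 ht)) e
        have := (mem_Ico.1 hj).1
        omega
      unfold J
      split_ifs <;> first | omega | norm_num
    have h3 : ∑ i ∈ range t, J (Y i < Y t) + ∑ i ∈ range t, J (A ≤ Y i) =
        ∑ i ∈ range t, J (A ≤ Y i ∧ Y i < Y t) + ∑ _i ∈ range t, (1 : ℝ) := by
      rw [← sum_add_distrib, ← sum_add_distrib]
      refine sum_congr rfl fun i _ => ?_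
      unfold J
      split_ifs <;> first | omega | norm_num
    rw [pp_rest hi hY hA ht.le] at h3
    simp only [sum_const, card_range, nsmul_eq_mul, mul_one, Nat.card_Ico] at h2 h3
    rw [Nat.cast_sub ht] at h2
    push_cast at h2
    linarith

end

theorem core : ∃ C : ℝ, 0 ≤ C ∧ ∀ (n A : ℕ) (Y : ℕ → ℕ) (D : ℝ), Set.InjOn Y (range n) →
    (∀ i < n, Y i < n) → 1 ≤ n → 2 * A ≤ n → n ≤ 2 * A + 1 →
    (∀ t ≤ n, (A : ℝ) ≤ pp n A Y t + qq A Y t) → 0 ≤ D → D ≤ (n : ℝ) ^ 2 →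
    (∀ t ≤ n, -(2 * D) ≤ ∑ i ∈ range t, ((n : ℝ) - 1 - 2 * Y i)) →
    π / 16 * (n : ℝ) ^ 2 - 2 * D - C * n ≤ ∑ t ∈ range n, ll n Y t := by
  obtain ⟨C, C0, hC⟩ := stepL
  refine ⟨2 * C + 1, by positivity, ?_⟩
  intro n A Y D hi hY n1 A1 A2 hb D0 D2 hS
  have hA : A ≤ n := by omega
  have n1' : (1 : ℝ) ≤ n := by exact_mod_cast n1
  have A1' : 2 * (A : ℝ) ≤ n := by exact_mod_cast A1
  have A2' : (n : ℝ) ≤ 2 * A + 1 := by exact_mod_cast A2
  have L1 : (1 : ℝ) ≤ n - A := by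
    have : A + 1 ≤ n := by omega
    have : (A : ℝ) + 1 ≤ n := by exact_mod_cast this
    linarith
  set L : ℝ := n - A with hL
  set e : ℝ := n - 2 * A with he
  have nL : (n : ℝ) ≤ 2 * L := by linarith
  have nL2 : (n : ℝ) ^ 2 ≤ 4 * L ^ 2 := by nlinarith
  have pL : ∀ t ≤ n, pp n A Y t ≤ L := fun t ht => by
    have := pp_rest hi hY hA ht
    have h2 : 0 ≤ ∑ i ∈ range t, J (A ≤ Y i) := sum_nonneg fun _ _ => J_nonneg _
    linarith
  have qA : ∀ t ≤ n, qq A Y t ≤ A := fun t ht => by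
    have := qq_rest hi hY hA ht
    have h2 : 0 ≤ ∑ j ∈ Ico t n, J (Y j < A) := sum_nonneg fun _ _ => J_nonneg _
    linarith
  have p0 : pp n A Y 0 = L := by
    have := pp_rest hi hY hA (Nat.zero_le n)
    rw [sum_range_zero] at this
    linarith
  have q0 : qq A Y 0 = 0 := sum_range_zero _
  have a0 : aa n A Y 0 = 0 := sum_range_zero _
  have b0 : bb n A Y 0 = 0 := sum_range_zero _
  have an : ∀ t, 0 ≤ aa n A Y t := fun t => sum_nonneg fun _ _ => sum_nonneg fun _ _ => J_nonneg _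
  have bn : ∀ t, 0 ≤ bb n A Y t := fun t => sum_nonneg fun _ _ => sum_nonneg fun _ _ => J_nonneg _
  have aL : ∀ t ≤ n, aa n A Y t ≤ 4 * L ^ 2 := fun t ht => (cross_le ht _).trans nL2
  have bL : ∀ t ≤ n, bb n A Y t ≤ 4 * L ^ 2 := fun t ht => (cross_le ht _).trans nL2
  have inv : ∀ t ≤ n, 2 * (aa n A Y t + bb n A Y t) = ∑ i ∈ range t, ((n : ℝ) - 1 - 2 * Y i) +
      L ^ 2 - pp n A Y t ^ 2 - (qq A Y t + e) ^ 2 - e * (L - (qq A Y t + e) - pp n A Y t) := by
    intro t ht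
    induction t with
    | zero =>
      rw [a0, b0, p0, q0, sum_range_zero]
      ring
    | succ t ih =>
      have ih := ih (by omega)
      rw [sum_range_succ]
      rcases lt_or_ge (Y t) A with h | h
      · obtain ⟨k, m, -, -, -, -, h1, h2, h3, h4, -, h6, -⟩ := nstep hi hY hA ht h
        rw [h1, h2, h4]
        linear_combination ih + 2 * h3 + 2 * h6 - he
      · obtain ⟨k, m, -, -, -, -, h1, h2, h3, h4, -, h6, -⟩ := pstep hi hY hA ht h
        rw [h2] at ih h6
        rw [h1, h3]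
        linear_combination ih - 2 * h4 + 2 * h6 + he
  have con : ∀ t ≤ n, (L ^ 2 - pp n A Y t ^ 2 - (qq A Y t + e) ^ 2) / 2 - D ≤
      aa n A Y t + bb n A Y t := fun t ht => by
    have h1 := inv t ht
    have h2 := hS t ht
    have h3 := hb t ht
    have h4 : e * (L - (qq A Y t + e) - pp n A Y t) ≤ 0 :=
      mul_nonpos_of_nonneg_of_nonpos (by linarith) (by linarith)
    linarith
  have main : ∀ t ≤ n, Psi L D (pp n A Y t) (qq A Y t + e) (aa n A Y t) (bb n A Y t) +
      aa n A Y t ≤ D + L + C + ∑ i ∈ range t, (ll n Y i + C) := by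
    intro t ht
    induction t with
    | zero =>
      have := hC L D L 0 e 0 0 0 0 0 L1 le_rfl (by linarith) (by linarith) (by linarith)
        (by linarith) D0 (D2.trans nL2) le_rfl (by linarith) le_rfl (by linarith) le_rfl
        (by positivity) le_rfl (by positivity) (by ring) (by simp) (by nlinarith [sq_nonneg e])
      have h2 : Psi L D L 0 0 0 = D := by
        have : L ≠ 0 := by linarith
        simp only [Psi, div_self this, zero_div, Phi_start]
        field_simp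
      rw [a0, b0, p0, q0, sum_range_zero]
      have h3 : e * L ≤ 1 * L := mul_le_mul_of_nonneg_right (by linarith) (by linarith)
      linarith
    | succ t ih =>
      have ih := ih (by omega)
      rw [sum_range_succ]
      have c0 := con t (by omega)
      have c1 := con (t + 1) ht
      rcases lt_or_ge (Y t) A with h | h
      · obtain ⟨k, m, k0, k1, m0, m1, h1, h2, h3, h4, h5, -, h7⟩ := nstep hi hY hA ht h
        have := qA (t + 1) ht
        have h8 := hb t (by omega)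
        rw [h1] at h5 this
        rw [h1, h2, h4, add_right_comm] at c1 ⊢
        have := hC L D (pp n A Y t) (qq A Y t + e) 1 (aa n A Y t) (aa n A Y (t + 1)) (bb n A Y t)
          k m L1 (pL t (by omega)) (by linarith) (by linarith) zero_le_one le_rfl D0
          (D2.trans nL2) k0 (k1.trans nL) m0 (m1.trans nL) (an _) (aL _ ht) (bn _)
          (bL t (by omega)) (by linarith)
          (by nlinarith [mul_nonneg (show 0 ≤ e by linarith) m0]) c1
        linarith
      · obtain ⟨k, m, k0, k1, m0, m1, h1, h2, h3, h4, h5, -, h7⟩ := pstep hi hY hA ht h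
        have h9 := pL t (by omega)
        have h8 := hb (t + 1) ht
        have h10 := qA t (by omega)
        rw [h1] at h8
        rw [h1, h3]
        rw [h2] at ih c0 h5 h9
        have := hC L D (qq A Y t + e) (pp n A Y (t + 1)) 1 (bb n A Y (t + 1)) (bb n A Y t)
          (aa n A Y t) k m L1 (by linarith) h9 (by linarith) zero_le_one le_rfl D0
          (D2.trans nL2) k0 (k1.trans nL) m0 (m1.trans nL) (bn _) (bL t (by omega)) (an _)
          (aL t (by omega)) (by linarith) h5 (by linarith)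
        rw [Psi_swap (by linarith), Psi_swap (L := L) (by linarith) D (pp n A Y (t + 1))] at this
        linarith
  have h1 := main n le_rfl
  have pn : pp n A Y n = 0 := by simp [pp]
  have qn : qq A Y n + e = L := by
    have := qq_rest hi hY hA (le_refl n)
    rw [Ico_self, sum_empty] at this
    linarith
  have an' : aa n A Y n = 0 := by simp [aa]
  have bn' : bb n A Y n = 0 := by simp [bb]
  have h2 : Psi L D 0 L 0 0 = π / 4 * L ^ 2 - D := by
    have : L ≠ 0 := by linarith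
    simp only [Psi, div_self this, zero_div, Phi_end]
    field_simp
  rw [pn, qn, an', bn', h2, sum_add_distrib] at h1
  simp only [sum_const, card_range, nsmul_eq_mul] at h1
  have h3 : π / 16 * (n : ℝ) ^ 2 ≤ π / 16 * (4 * L ^ 2) :=
    mul_le_mul_of_nonneg_left nL2 (by positivity)
  have h4 : (0 : ℝ) ≤ A := Nat.cast_nonneg A
  nlinarith

end Pool.Agent.P.MP_8de615_co
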