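import Mathlib
import Pool.Agent.P.MP_8de615_co.Core

/-! Inversions of words, rotation, and the extremal word. -/

set_option autoImplicit false

namespace Pool.Agent.P.MP_8de615_co

open Real Finset

/-- Number of inversions of the word `Y 0, ..., Y (n-1)`. -/
def W (n : ℕ) (Y : ℕ → ℕ) : ℝ := ∑ t ∈ range n, ∑ j ∈ Ico (t + 1) n, J (Y j < Y t)

theorem W_nonneg (n : ℕ) (Y : ℕ → ℕ) : 0 ≤ W n Y :=
  sum_nonneg fun _ _ => sum_nonneg fun _ _ => J_nonneg _

theorem W_le (n : ℕ) (Y : ℕ → ℕ) : W n Y ≤ (n : ℝ) ^ 2 := by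
  calc _ ≤ ∑ _i ∈ range n, (n : ℝ) := sum_le_sum fun i _ => sum_J_le (Ico_sub n _) _
    _ = _ := by simp [sq]

theorem W_add {n : ℕ} {Y : ℕ → ℕ} (hi : Set.InjOn Y (range n)) :
    W n Y + ∑ t ∈ range n, ll n Y t = n * (n - 1) / 2 := by
  have h1 : ∀ t ∈ range n, ∑ j ∈ Ico (t + 1) n, J (Y j < Y t) + ll n Y t = n - 1 - t := by
    intro t ht
    have : ∑ j ∈ Ico (t + 1) n, J (Y j < Y t) + ll n Y t = ∑ _j ∈ Ico (t + 1) n, (1 : ℝ) := by
      rw [ll, ← sum_add_distrib]
      refine sum_congr rfl fun j hj => ?_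
      have : Y j ≠ Y t := fun e => by
        have := hi (mem_coe.2 (Ico_sub _ _ hj)) (mem_coe.2 ht) e
        have := (mem_Ico.1 hj).1
        omega
      unfold J
      split_ifs <;> first | omega | norm_num
    rw [this]
    simp only [sum_const, nsmul_eq_mul, mul_one, Nat.card_Ico]
    rw [Nat.cast_sub (mem_range.1 ht)]
    push_cast
    ring
  have h2 : ∀ (k : ℕ) (c : ℝ), ∑ t ∈ range k, (c - t) = k * c - k * (k - 1) / 2 := by
    intro k c
    induction k with
    | zero => simp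
    | succ k ih =>
      rw [sum_range_succ, ih]
      push_cast
      ring
  rw [W, ← sum_add_distrib, sum_congr rfl h1, h2]
  ring

theorem W_shift {m : ℕ} {X : ℕ → ℕ} (hi : Set.InjOn X (range (m + 1)))
    (hX : ∀ i < m + 1, X i < m + 1) (hp : X (m + 1) = X 0) :
    W (m + 1) (fun i => X (i + 1)) = W (m + 1) X + (m - 2 * X 0) := by
  have h0 := count_lt hi hX (hX 0 (by omega)).le
  rw [sum_range_succ', J_neg (lt_irrefl _), add_zero] at h0
  have h1 : ∑ t ∈ range m, (J (X 0 < X (t + 1)) + J (X (t + 1) < X 0)) =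
      ∑ _t ∈ range m, (1 : ℝ) := by
    refine sum_congr rfl fun j hj => ?_
    have : X (j + 1) ≠ X 0 := fun e => by
      have := hi (mem_coe.2 (mem_range.2 (Nat.succ_lt_succ (mem_range.1 hj))))
        (mem_coe.2 (mem_range.2 (Nat.succ_pos m))) e
      omega
    unfold J
    split_ifs <;> first | omega | norm_num
  rw [sum_add_distrib, h0] at h1
  simp only [sum_const, card_range, nsmul_eq_mul, mul_one] at h1
  have h2 : ∀ t ∈ range m, ∑ j ∈ Ico (t + 1) (m + 1), J (X (j + 1) < X (t + 1)) =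
      ∑ j ∈ Ico (t + 1 + 1) (m + 1), J (X j < X (t + 1)) + J (X 0 < X (t + 1)) := by
    intro t ht
    rw [sum_Ico_succ_top (mem_range.1 ht), hp, sum_Ico_add' (fun j => J (X j < X (t + 1)))]
  have h3 : ∑ j ∈ Ico (0 + 1) (m + 1), J (X j < X 0) = X 0 := by
    rw [← sum_Ico_add' (fun j => J (X j < X 0)), ← range_eq_Ico, h0]
  rw [W, W, sum_range_succ, Ico_self, sum_empty, sum_congr rfl h2, sum_range_succ', h3,
    sum_add_distrib]
  linarith

theorem quarter (L : ℕ) : ∑ i ∈ range L, √((L : ℝ) ^ 2 - ((i : ℝ) + 1) ^ 2) ≤ π / 4 * L ^ 2 := by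
  rcases Nat.eq_zero_or_pos L with rfl | hL
  · simp
  have L0 : (0 : ℝ) < L := by exact_mod_cast hL
  have h1 := AntitoneOn.sum_le_integral (f := fun x => √(1 - (x / L) ^ 2)) (x₀ := 0) (a := L)
    (fun x hx y _ hxy => by
      have := hx.1
      dsimp only
      gcongr)
  have h2 : ∫ x in (-1 : ℝ)..0, √(1 - x ^ 2) = ∫ x in (0 : ℝ)..1, √(1 - x ^ 2) := by
    have := intervalIntegral.integral_comp_neg (a := 0) (b := 1) fun x : ℝ => √(1 - x ^ 2)
    simp only [neg_sq, neg_zero] at this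
    exact this.symm
  have h3 := intervalIntegral.integral_add_adjacent_intervals (μ := MeasureTheory.volume)
    (f := fun x : ℝ => √(1 - x ^ 2)) (a := -1) (b := 0) (c := 1)
    (Continuous.intervalIntegrable (by fun_prop) _ _)
    (Continuous.intervalIntegrable (by fun_prop) _ _)
  rw [integral_sqrt_one_sub_sq, h2] at h3
  rw [intervalIntegral.integral_comp_div (fun x : ℝ => √(1 - x ^ 2)) L0.ne', zero_add, zero_div,
    div_self L0.ne', smul_eq_mul] at h1
  have h4 := mul_le_mul_of_nonneg_left h1 L0.le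
  rw [mul_sum] at h4
  refine le_trans (le_of_eq (sum_congr rfl fun i _ => ?_)) (h4.trans_eq ?_)
  · have : (L : ℝ) ^ 2 - ((i : ℝ) + 1) ^ 2 = L ^ 2 * (1 - ((0 + ((i + 1 : ℕ) : ℝ)) / L) ^ 2) := by
      push_cast
      field_simp
      ring
    rw [this, sqrt_mul (by positivity), sqrt_sq L0.le]
  · have : ∫ x in (0 : ℝ)..1, √(1 - x ^ 2) = π / 4 := by linarith
    rw [this]
    ring

theorem row (L : ℕ) (x : ℝ) : ∑ j ∈ range L, J (((j : ℝ) + 1) ^ 2 ≤ x) ≤ √x := by
  have : ∀ k : ℕ, ∑ j ∈ range k, J (((j : ℝ) + 1) ^ 2 ≤ x) ≤ min √x k := by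
    intro k
    induction k with
    | zero => simp
    | succ k ih =>
      rw [sum_range_succ]
      rw [le_min_iff] at ih ⊢
      push_cast
      by_cases h : ((k : ℝ) + 1) ^ 2 ≤ x
      · have := le_sqrt_of_sq_le h
        rw [J_pos h]
        constructor <;> linarith [ih.2]
      · rw [J_neg h]
        constructor <;> linarith [ih.1, ih.2]
  exact (this L).trans (min_le_left _ _)

theorem thr (a : ℕ) (x : ℝ) : min ((a : ℝ) ^ 2) (x - 2 * a - 1) ≤
    ∑ y ∈ range a, (2 * (y : ℝ) + 1) * J (((y : ℝ) + 1) ^ 2 < x) := by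
  induction a with
  | zero => simp
  | succ a ih =>
    rw [sum_range_succ]
    rw [min_le_iff] at ih ⊢
    push_cast
    have : (0 : ℝ) ≤ a := Nat.cast_nonneg a
    by_cases h : ((a : ℝ) + 1) ^ 2 < x
    · rw [J_pos h]
      rcases ih with ih | ih
      · left
        linarith
      · right
        linarith
    · rw [J_neg h]
      right
      rcases ih with ih | ih <;> nlinarith

/-- The sorting key of the extremal word. -/
def ky (A L v : ℕ) : ℝ := if v < A then ((A : ℝ) - v) ^ 2 else (L : ℝ) ^ 2 - ((v : ℝ) - A + 1) ^ 2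

section
variable {A L : ℕ} {Y : ℕ → ℕ} (hi : Set.InjOn Y (range (A + L)))
  (hY : ∀ i < A + L, Y i < A + L) (h1 : A ≤ L) (h2 : L ≤ A + 1)
  (hk : ∀ i j, i ≤ j → j < A + L → ky A L (Y i) ≤ ky A L (Y j))
include hi hY h1 h2 hk

theorem low1 : ∑ t ∈ range (A + L), ll (A + L) Y t ≤ π / 4 * L ^ 2 := by
  have e1 : ∀ t ∈ range (A + L), ll (A + L) Y t ≤ ∑ j ∈ range (A + L), J (Y t < A) *
      (J (A ≤ Y j) * J ((((Y j : ℝ) - A) + 1) ^ 2 ≤ L ^ 2 - ((A : ℝ) - Y t) ^ 2)) := by
    intro t _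
    refine le_trans (sum_le_sum fun j hj => ?_) (sum_le_sum_of_subset_of_nonneg
      (Ico_sub _ (t + 1)) fun _ _ _ => mul_nonneg (J_nonneg _)
        (mul_nonneg (J_nonneg _) (J_nonneg _)))
    by_cases h : Y t < Y j
    · have h3 := hk t j (by have := (mem_Ico.1 hj).1; omega) (mem_Ico.1 hj).2
      have h' : (Y t : ℝ) < Y j := by exact_mod_cast h
      unfold ky at h3
      split_ifs at h3 with a b b
      · have : (Y j : ℝ) < A := by exact_mod_cast b
        nlinarith
      · rw [J_pos h, J_pos a, J_pos (not_lt.1 b), J_pos (by linarith)]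
        norm_num
      · omega
      · have : (A : ℝ) ≤ Y t := by exact_mod_cast not_lt.1 a
        nlinarith
    · rw [J_neg h]
      exact mul_nonneg (J_nonneg _) (mul_nonneg (J_nonneg _) (J_nonneg _))
  have e2 : ∀ t ∈ range (A + L), ll (A + L) Y t ≤
      J (Y t < A) * √((L : ℝ) ^ 2 - ((A : ℝ) - Y t) ^ 2) := by
    intro t ht
    refine (e1 t ht).trans ?_
    rw [← mul_sum, count hi hY fun v => J (A ≤ v) *
      J ((((v : ℝ) - A) + 1) ^ 2 ≤ L ^ 2 - ((A : ℝ) - Y t) ^ 2), sum_range_add,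
      sum_eq_zero fun v hv => by rw [J_neg (not_le.2 (mem_range.1 hv)), zero_mul], zero_add]
    refine mul_le_mul_of_nonneg_left (le_trans (le_of_eq (sum_congr rfl fun j _ => ?_))
      (row L _)) (J_nonneg _)
    rw [J_pos (Nat.le_add_right _ _), one_mul]
    simp only [Nat.cast_add, add_sub_cancel_left]
  refine (sum_le_sum e2).trans ?_
  rw [count hi hY fun v => J (v < A) * √((L : ℝ) ^ 2 - ((A : ℝ) - v) ^ 2), sum_range_add,
    sum_eq_zero (s := range L) fun v _ => by rw [J_neg (by omega), zero_mul], add_zero,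
    ← sum_range_reflect]
  refine le_trans ?_ (quarter L)
  refine le_trans (le_of_eq (sum_congr rfl fun j hj => ?_)) (sum_le_sum_of_subset_of_nonneg
    (range_subset_range.2 h1) fun _ _ _ => sqrt_nonneg _)
  have := mem_range.1 hj
  rw [J_pos (by omega), one_mul, Nat.sub_sub, Nat.cast_sub (by omega)]
  push_cast
  ring_nf

theorem low2 {t : ℕ} (ht : t ≤ A + L) :
    -(4 * (L : ℝ) + 2) ≤ ∑ i ∈ range t, (((A + L : ℕ) : ℝ) - 1 - 2 * Y i) := by
  have L0 : (0 : ℝ) ≤ L := Nat.cast_nonneg L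
  have h1' : (A : ℝ) ≤ L := by exact_mod_cast h1
  have h2' : (L : ℝ) ≤ A + 1 := by exact_mod_cast h2
  rcases t with _ | t
  · rw [sum_range_zero]
    linarith
  set x := ky A L (Y t) with hx
  have xL : x ≤ (L : ℝ) ^ 2 := by
    rw [hx, ky]
    split_ifs with h
    · have : (Y t : ℝ) < A := by exact_mod_cast h
      have : (0 : ℝ) ≤ Y t := Nat.cast_nonneg _
      nlinarith
    · nlinarith [sq_nonneg ((Y t : ℝ) - A + 1)]
  let g : ℕ → ℝ := fun v => if v < A then (2 * ((A : ℝ) - v) - 1) * J (ky A L v < x)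
    else -(2 * ((v : ℝ) - A) + 1) * J (ky A L v ≤ x)
  have e1 : ∑ i ∈ range (A + L), g (Y i) ≤ ∑ i ∈ range (t + 1), (((A + L : ℕ) : ℝ) - 1 - 2 * Y i) := by
    rw [← sum_range_add_sum_Ico _ ht, ← add_zero (∑ i ∈ range (t + 1), (((A + L : ℕ) : ℝ) - _ - _))]
    refine add_le_add (sum_le_sum fun i hi => ?_) (sum_nonpos fun j hj => ?_)
    · have h3 : ky A L (Y i) ≤ x := hk i t (by have := mem_range.1 hi; omega) ht
      simp only [g]
      push_cast
      split_ifs with h
      · have : (Y i : ℝ) + 1 ≤ A := by exact_mod_cast h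
        nlinarith [J_le (ky A L (Y i) < x)]
      · rw [J_pos h3]
        linarith
    · have h3 : x ≤ ky A L (Y j) := hk t j (by have := (mem_Ico.1 hj).1; omega) (mem_Ico.1 hj).2
      simp only [g]
      split_ifs with h
      · rw [J_neg (not_lt.2 h3), mul_zero]
      · have : (A : ℝ) ≤ Y j := by exact_mod_cast not_lt.1 h
        nlinarith [J_nonneg (ky A L (Y j) ≤ x)]
  refine le_trans ?_ e1
  have e2 : ∑ v ∈ range A, g v = ∑ y ∈ range A, (2 * (y : ℝ) + 1) * J (((y : ℝ) + 1) ^ 2 < x) := by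
    rw [← sum_range_reflect]
    refine sum_congr rfl fun j hj => ?_
    have := mem_range.1 hj
    have h3 : A - 1 - j < A := by omega
    have h4 : (A : ℝ) - (A - 1 - j : ℕ) = j + 1 := by
      rw [Nat.sub_sub, Nat.cast_sub (by omega)]
      push_cast
      ring
    simp only [g, ky, if_pos h3, h4]
    ring
  have e3 : ∑ v ∈ range L, g (A + v) = ∑ y ∈ range L,
      ((2 * (y : ℝ) + 1) * J (((y : ℝ) + 1) ^ 2 < L ^ 2 - x) - (2 * (y : ℝ) + 1)) := by
    refine sum_congr rfl fun j _ => ?_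
    have h3 : ¬A + j < A := by omega
    simp only [g, ky, if_neg h3, Nat.cast_add, add_sub_cancel_left, J]
    split_ifs <;> linarith
  have e4 : ∀ k : ℕ, ∑ y ∈ range k, (2 * (y : ℝ) + 1) = k ^ 2 := by
    intro k
    induction k with
    | zero => simp
    | succ k ih =>
      rw [sum_range_succ, ih]
      push_cast
      ring
  rw [count hi hY g, sum_range_add, e2, e3, sum_sub_distrib, e4]
  have t1 := thr A x
  have t2 := thr L (L ^ 2 - x)
  have A0 : (0 : ℝ) ≤ A := Nat.cast_nonneg A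
  have x0 : 0 ≤ x := by
    rw [hx, ky]
    split_ifs with h
    · positivity
    · have : (A : ℝ) ≤ Y t := by exact_mod_cast not_lt.1 h
      have h5 : (Y t : ℝ) + 1 ≤ A + L := by exact_mod_cast hY t ht
      nlinarith
  have t3 : (L : ℝ) ^ 2 ≤ A ^ 2 + 2 * A + 1 := by nlinarith
  rw [min_le_iff] at t1 t2
  rcases t1 with t1 | t1 <;> rcases t2 with t2 | t2 <;> nlinarith

end

end Pool.Agent.P.MP_8de615_co
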