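import Mathlib
import Pool.Agent.P.MP_8de615_co.Lower
import Pool.Agent.P.MP_8de615_co.Defs

/-! From words to the graph of cycles. -/

set_option autoImplicit false

namespace Pool.Agent.P.MP_8de615_co

open Real Finset Equiv

variable {m : ℕ}

/-- The periodic word of a permutation. -/
def word (τ : Perm (Fin (m + 1))) (i : ℕ) : ℕ := τ (Fin.ofNat (m + 1) i)

/-- The number of inversions. -/
def invs (τ : Perm (Fin (m + 1))) : ℝ := W (m + 1) (word τ)

theorem word_lt (τ : Perm (Fin (m + 1))) (i : ℕ) : word τ i < m + 1 := Fin.is_lt _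

theorem word_inj (τ : Perm (Fin (m + 1))) : Set.InjOn (word τ) (range (m + 1)) := by
  intro i hi j hj h
  have := congrArg Fin.val (τ.injective (Fin.ext h))
  simpa only [Fin.val_ofNat, Nat.mod_eq_of_lt (mem_range.1 hi),
    Nat.mod_eq_of_lt (mem_range.1 hj)] using this

theorem word_per (τ : Perm (Fin (m + 1))) (i : ℕ) : word τ (m + 1 + i) = word τ i := by
  simp only [word]
  congr 2
  ext
  simp

theorem rot_ofNat (i : ℕ) :
    finRotate (m + 1) (Fin.ofNat (m + 1) i) = Fin.ofNat (m + 1) (i + 1) := by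
  rw [finRotate_apply]
  ext
  simp [Fin.val_add]

theorem rot_pow (k i : ℕ) :
    (finRotate (m + 1) ^ k) (Fin.ofNat (m + 1) i) = Fin.ofNat (m + 1) (k + i) := by
  induction k with
  | zero => simp
  | succ k ih => rw [pow_succ', Perm.mul_apply, ih, rot_ofNat, add_right_comm]

theorem word_rot (τ : Perm (Fin (m + 1))) (k i : ℕ) :
    word (τ * finRotate (m + 1) ^ k) i = word τ (k + i) := by
  rw [word, Perm.mul_apply, rot_pow, word]

theorem invs_rot (τ : Perm (Fin (m + 1))) (k : ℕ) : invs (τ * finRotate (m + 1) ^ k) =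
    invs τ + ∑ i ∈ range k, (((m + 1 : ℕ) : ℝ) - 1 - 2 * word τ i) := by
  induction k with
  | zero => simp
  | succ k ih =>
    have := W_shift (word_inj (τ * finRotate (m + 1) ^ k)) (fun i _ => word_lt _ i)
      (word_per _ 0)
    have e : word (τ * finRotate (m + 1) ^ (k + 1)) =
        fun i => word (τ * finRotate (m + 1) ^ k) (i + 1) := by
      funext i
      rw [word_rot, word_rot, add_assoc, add_comm 1]
    rw [sum_range_succ, ← add_assoc, ← ih, invs, e, this, word_rot, invs]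
    push_cast
    ring_nf

theorem upper : ∃ C : ℝ, ∀ (m : ℕ) (τ : Perm (Fin (m + 1))), ∃ k : ℕ,
    invs (τ * finRotate (m + 1) ^ k) ≤ (8 - π) / 16 * ((m + 1 : ℕ) : ℝ) ^ 2 + C * (m + 1 : ℕ) := by
  obtain ⟨C, C0, hC⟩ := core
  refine ⟨C, fun m τ => ?_⟩
  set c := finRotate (m + 1) with hc
  obtain ⟨ρ, ⟨k1, rfl⟩, hρ⟩ := Set.exists_min_image (Set.range fun k : ℕ => τ * c ^ k) invs
    (Set.toFinite _) ⟨_, 0, rfl⟩
  refine ⟨k1, ?_⟩
  set A := (m + 1) / 2 with hA
  have hA' : A ≤ m + 1 := by omega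
  let s : ℕ → ℝ := fun k => ∑ i ∈ range k, (J (word τ i < A) - J (A ≤ word τ i))
  have hs : ∀ r, s (m + 1 + r) = s r + (2 * A - (m + 1 : ℕ)) := by
    intro r
    have h1 := pp_rest (word_inj τ) (fun i _ => word_lt τ i) hA' le_rfl
    have h2 := count_lt (word_inj τ) (fun i _ => word_lt τ i) hA'
    simp only [s, sum_range_add _ (m + 1), word_per]
    rw [sum_sub_distrib, h1, h2, pp, Ico_self, sum_empty]
    ring
  obtain ⟨k0, hk0, hmin⟩ := exists_min_image (range (m + 1)) s ⟨0, by simp⟩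
  have A1 : 2 * (A : ℝ) ≤ (m + 1 : ℕ) := by exact_mod_cast (by omega : 2 * A ≤ m + 1)
  have := hC (m + 1) A (word (τ * c ^ k0)) ((invs (τ * c ^ k0) - invs (τ * c ^ k1)) / 2)
    (word_inj _) (fun i _ => word_lt _ i) (by omega) (by omega) (by omega)
    (fun t ht => by
      have h1 := pp_rest (word_inj (τ * c ^ k0)) (fun i _ => word_lt _ i) hA' ht
      have h2 : s (k0 + t) = s k0 + (qq A (word (τ * c ^ k0)) t -
          ∑ i ∈ range t, J (A ≤ word (τ * c ^ k0) i)) := by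
        simp only [s, sum_range_add _ k0, qq, hc, word_rot, sum_sub_distrib]
        ring
      have h3 : s k0 + (2 * A - (m + 1 : ℕ)) ≤ s (k0 + t) := by
        rcases lt_or_ge (k0 + t) (m + 1) with h | h
        · linarith [hmin _ (mem_range.2 h)]
        · obtain ⟨r, hr⟩ := Nat.exists_eq_add_of_le h
          have := mem_range.1 hk0
          rw [hr, hs]
          linarith [hmin r (mem_range.2 (by omega))]
      linarith)
    (by linarith [hρ _ ⟨k0, rfl⟩])
    (by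
      have h1 := W_le (m + 1) (word (τ * c ^ k0))
      have h2 := W_nonneg (m + 1) (word (τ * c ^ k1))
      have h3 := W_nonneg (m + 1) (word (τ * c ^ k0))
      simp only [invs]
      linarith)
    (fun t _ => by
      have h1 := invs_rot (τ * c ^ k0) t
      have h2 := hρ _ ⟨k0 + t, rfl⟩
      rw [mul_assoc, ← pow_add] at h1
      linarith)
  have h2 := W_add (word_inj (τ * c ^ k0))
  have h3 : (0 : ℝ) ≤ (m + 1 : ℕ) := Nat.cast_nonneg _
  simp only [invs] at this ⊢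
  linarith

theorem lower (m : ℕ) : ∃ σ : Perm (Fin (m + 1)), ∀ k ≤ m + 1,
    (8 - π) / 16 * ((m + 1 : ℕ) : ℝ) ^ 2 - 10 * (m + 1 : ℕ) ≤ invs (σ * finRotate (m + 1) ^ k) := by
  obtain ⟨A, L, e, h1, h2⟩ : ∃ A L, m + 1 = A + L ∧ A ≤ L ∧ L ≤ A + 1 :=
    ⟨(m + 1) / 2, m + 1 - (m + 1) / 2, by omega, by omega, by omega⟩
  let f : Fin (m + 1) → ℝ := fun v => ky A L v
  refine ⟨Tuple.sort f, fun k hk => ?_⟩
  have hk' : ∀ i j, i ≤ j → j < A + L →
      ky A L (word (Tuple.sort f) i) ≤ ky A L (word (Tuple.sort f) j) := by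
    intro i j hij hj
    refine Tuple.monotone_sort f (a := Fin.ofNat (m + 1) i) (b := Fin.ofNat (m + 1) j) ?_
    rw [Fin.le_def, Fin.val_ofNat, Fin.val_ofNat, Nat.mod_eq_of_lt (by omega),
      Nat.mod_eq_of_lt (by omega)]
    exact hij
  have hi := word_inj (Tuple.sort f)
  have h3 := W_add hi
  have hY : ∀ i < A + L, word (Tuple.sort f) i < A + L := fun i _ => e ▸ word_lt _ i
  rw [invs_rot, invs]
  generalize word (Tuple.sort f) = Y at *
  rw [e] at hi h3 hk ⊢
  have l1 := low1 hi hY h1 h2 hk'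
  have l2 := low2 hi hY h1 h2 hk' hk
  have h1' : (A : ℝ) ≤ L := by exact_mod_cast h1
  have h2' : (L : ℝ) ≤ A + 1 := by exact_mod_cast h2
  have A0 : (0 : ℝ) ≤ A := Nat.cast_nonneg A
  have h4 : (1 : ℝ) ≤ A + L := by exact_mod_cast (by omega : 1 ≤ A + L)
  have h5 : 4 * (L : ℝ) ^ 2 ≤ (A + L) ^ 2 + 3 * (A + L) := by nlinarith
  have h6 := mul_le_mul_of_nonneg_left h5 pi_pos.le
  have h7 := mul_le_mul_of_nonneg_right pi_le_four (by linarith : (0 : ℝ) ≤ A + L)
  push_cast at *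
  linarith

theorem invs_eq (τ : Perm (Fin (m + 1))) : invs τ = ∑ i, ∑ j, J (i < j) * J (τ j < τ i) := by
  rw [invs, W, sum_range]
  refine sum_congr rfl fun i _ => ?_
  have : ∑ j ∈ range (m + 1), J ((i : ℕ) < j) * J (word τ j < word τ i) =
      ∑ j ∈ Ico (i + 1 : ℕ) (m + 1), J (word τ j < word τ i) := by
    rw [← sum_range_add_sum_Ico _ (Nat.succ_le_of_lt i.is_lt), sum_eq_zero fun j hj => by
      rw [J_neg (by have := mem_range.1 hj; omega), zero_mul], zero_add]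
    exact sum_congr rfl fun j hj => by
      rw [J_pos (show (i : ℕ) < j from (mem_Ico.1 hj).1), one_mul]
  rw [← this, sum_range]
  refine sum_congr rfl fun j _ => ?_
  simp only [word, Fin.ofNat_val_eq_self]
  rfl

theorem invs_swap (τ : Perm (Fin (m + 1))) {u v : Fin (m + 1)} (h : (v : ℕ) = u + 1) :
    invs (swap u v * τ) = invs τ + J (τ⁻¹ u < τ⁻¹ v) - J (τ⁻¹ v < τ⁻¹ u) := by
  have e1 : ∀ x y : Fin (m + 1), J (swap u v y < swap u v x) =
      J (y < x) + J (x = u) * J (y = v) - J (x = v) * J (y = u) := by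
    intro x y
    simp only [swap_apply_def, J, Fin.lt_def, Fin.ext_iff, apply_ite Fin.val]
    split_ifs <;> first | omega | norm_num
  have e2 : ∀ u v : Fin (m + 1), ∑ i, ∑ j, J (i < j) * (J (τ i = u) * J (τ j = v)) =
      J (τ⁻¹ u < τ⁻¹ v) := by
    intro u v
    simp only [← Perm.eq_inv_iff_eq]
    simp [J]
  rw [invs_eq, invs_eq, ← e2, ← e2, ← sum_add_distrib, ← sum_sub_distrib]
  refine sum_congr rfl fun i _ => ?_
  rw [← sum_add_distrib, ← sum_sub_distrib]
  refine sum_congr rfl fun j _ => ?_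
  rw [show J ((swap u v * τ) j < (swap u v * τ) i) = _ from e1 (τ i) (τ j)]
  ring

theorem descent (τ : Perm (Fin (m + 1))) (h : τ ≠ 1) :
    ∃ u v : Fin (m + 1), (v : ℕ) = u + 1 ∧ invs (swap u v * τ) = invs τ - 1 := by
  by_contra hn
  have : StrictMono ⇑τ⁻¹ := by
    refine Fin.strictMono_iff_lt_succ.2 fun i => lt_of_not_ge fun hi => hn ⟨i.castSucc, i.succ,
      by simp, ?_⟩
    have h2 : τ⁻¹ i.succ < τ⁻¹ i.castSucc :=
      lt_of_le_of_ne hi fun e => (Fin.castSucc_lt_succ (i := i)).ne' (τ⁻¹.injective e)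
    rw [invs_swap τ (by simp), J_pos h2, J_neg (not_lt.2 hi), add_zero]
  exact h (inv_eq_one.1 (Equiv.ext fun x => this.apply_eq))

theorem rot_cyc (m : ℕ) : (finRotate (m + 1)).IsCycleOn Set.univ := by
  rcases m with _ | m
  · exact Perm.isCycleOn_of_subsingleton (α := Fin 1) _ _
  · have := (isCycle_finRotate (n := m)).isCycleOn
    rwa [Set.eq_univ_of_forall (s := {x | finRotate (m + 2) x ≠ x}) fun x =>
      Perm.mem_support.1 (by rw [support_finRotate]; exact mem_univ x)] at this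

/-- The cycle whose cyclic word is the word of `τ`. -/
def cj (τ : Perm (Fin (m + 1))) : Cycles (m + 1) :=
  ⟨τ * finRotate (m + 1) * τ⁻¹, by
    have := (rot_cyc m).conj (g := τ)
    rwa [Set.image_univ_of_surjective τ.surjective] at this⟩

theorem cj_surj (γ : Cycles (m + 1)) : ∃ τ, γ = cj τ := by
  rcases m with _ | m
  · exact ⟨1, Subtype.ext (Subsingleton.elim (α := Perm (Fin 1)) _ _)⟩
  · have hn : (Set.univ : Set (Fin (m + 2))).Nontrivial := Set.nontrivial_univ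
    have h1 : γ.1.IsCycle := Perm.isCycle_iff_exists_isCycleOn.2
      ⟨_, hn, γ.2, fun _ _ => Set.mem_univ _⟩
    have h2 : γ.1.support = univ := eq_univ_of_forall fun x =>
      Perm.mem_support.2 (γ.2.apply_ne hn (Set.mem_univ x))
    obtain ⟨τ, hτ⟩ := isConj_iff.1 ((isCycle_finRotate (n := m)).isConj h1
      (by rw [h2, support_finRotate]))
    exact ⟨τ, Subtype.ext hτ.symm⟩

theorem cj_rot (τ : Perm (Fin (m + 1))) (k : ℕ) : cj (τ * finRotate (m + 1) ^ k) = cj τ := by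
  refine Subtype.ext ?_
  simp only [cj]
  group

theorem cj_inj {σ τ : Perm (Fin (m + 1))} (h : cj σ = cj τ) :
    ∃ k ≤ m + 1, τ = σ * finRotate (m + 1) ^ k := by
  have h1 : σ⁻¹ * τ * finRotate (m + 1) = finRotate (m + 1) * (σ⁻¹ * τ) := by
    have : σ * finRotate (m + 1) * σ⁻¹ = τ * finRotate (m + 1) * τ⁻¹ := congrArg Subtype.val h
    calc _ = σ⁻¹ * (τ * finRotate (m + 1) * τ⁻¹) * τ := by group
      _ = _ := by
        rw [← this]
        group
  refine ⟨(σ⁻¹ * τ) (Fin.ofNat (m + 1) 0), (Fin.is_lt _).le, ?_⟩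
  have h2 : ∀ i : ℕ, (σ⁻¹ * τ) (Fin.ofNat (m + 1) i) =
      Fin.ofNat (m + 1) ((σ⁻¹ * τ) (Fin.ofNat (m + 1) 0) + i) := by
    intro i
    induction i with
    | zero => rw [add_zero, Fin.ofNat_val_eq_self]
    | succ i ih =>
      rw [← rot_ofNat, ← Perm.mul_apply, h1, Perm.mul_apply, ih, rot_ofNat, add_assoc]
  rw [← inv_mul_eq_iff_eq_mul]
  ext1 x
  rw [← Fin.ofNat_val_eq_self x, h2, rot_pow]

theorem cj_swap (τ : Perm (Fin (m + 1))) (u v : Fin (m + 1)) :
    (cj (swap u v * τ)).1 = swap u v * (cj τ).1 * swap u v := by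
  simp only [cj, mul_inv_rev, swap_inv, mul_assoc]

theorem edist_cj (k : ℕ) : ∀ τ : Perm (Fin (m + 1)), invs τ < k + 1 →
    (Gamma (m + 1)).edist (cj 1) (cj τ) ≤ k := by
  induction k with
  | zero =>
    intro τ h
    by_cases h1 : τ = 1
    · simp [h1]
    · obtain ⟨u, v, -, h2⟩ := descent τ h1
      have : 0 ≤ invs (swap u v * τ) := W_nonneg _ _
      push_cast at h
      linarith
  | succ k ih =>
    intro τ h
    by_cases h1 : τ = 1
    · simp [h1]
    · obtain ⟨u, v, huv, h2⟩ := descent τ h1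
      have h3 := ih (swap u v * τ) (by push_cast at h; linarith)
      have h4 : (Gamma (m + 1)).edist (cj (swap u v * τ)) (cj τ) ≤ 1 := by
        rw [SimpleGraph.edist_le_one_iff_adj_or_eq, or_iff_not_imp_right]
        exact fun hne => (SimpleGraph.fromRel_adj _ _ _).2
          ⟨hne, Or.inr ⟨u, v, huv, cj_swap τ u v⟩⟩
      refine SimpleGraph.edist_triangle.trans ((add_le_add h3 h4).trans_eq ?_)
      push_cast
      rfl

theorem walk_cj {x y : Cycles (m + 1)} (p : (Gamma (m + 1)).Walk x y) (σ : Perm (Fin (m + 1)))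
    (h : y = cj σ) : ∃ τ, x = cj τ ∧ invs τ ≤ invs σ + p.length := by
  induction p with
  | nil => exact ⟨σ, h, by simp⟩
  | @cons x z y hxz p ih =>
    obtain ⟨τ, rfl, h2⟩ := ih h
    obtain ⟨u, v, huv, h3⟩ : ∃ u v : Fin (m + 1), (v : ℕ) = u + 1 ∧
        x.1 = swap u v * (cj τ).1 * swap u v := by
      obtain ⟨-, ⟨u, v, huv, h3⟩ | h3⟩ := (SimpleGraph.fromRel_adj _ _ _).1 hxz
      · refine ⟨u, v, huv, ?_⟩
        rw [h3]
        simp only [mul_assoc, swap_mul_self, mul_one, swap_mul_self_mul]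
      · exact h3
    refine ⟨swap u v * τ, Subtype.ext (h3.trans (cj_swap τ u v).symm), ?_⟩
    rw [invs_swap τ huv, SimpleGraph.Walk.length_cons]
    push_cast
    linarith [J_le (τ⁻¹ u < τ⁻¹ v), J_nonneg (τ⁻¹ v < τ⁻¹ u)]

theorem invs_one : invs (1 : Perm (Fin (m + 1))) = 0 := by
  rw [invs_eq]
  refine sum_eq_zero fun i _ => sum_eq_zero fun j _ => ?_
  by_cases h : i < j
  · rw [J_neg (show ¬(1 : Perm (Fin (m + 1))) j < (1 : Perm (Fin (m + 1))) i from h.not_gt),
      mul_zero]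
  · rw [J_neg h, zero_mul]

theorem final : ∃ C : ℝ, ∀ n : ℕ, 1 ≤ n → ∃ c : Cycles n, c.1 = finRotate n ∧ ∃ s : ℕ,
    (Gamma n).eccent c = s ∧ |(s : ℝ) - (8 - π) / 16 * (n : ℝ) ^ 2| ≤ C * n := by
  obtain ⟨C, hC⟩ := upper
  refine ⟨max C 10, fun n hn => ?_⟩
  obtain ⟨m, rfl⟩ : ∃ m, n = m + 1 := ⟨n - 1, by omega⟩
  refine ⟨cj 1, by simp [cj], ?_⟩
  haveI : Finite (Cycles (m + 1)) := Subtype.finite
  obtain ⟨γ, hγ⟩ := (Gamma (m + 1)).exists_edist_eq_eccent_of_finite (cj 1)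
  obtain ⟨τ, rfl⟩ := cj_surj γ
  obtain ⟨k, hk⟩ := hC m τ
  have h1 := edist_cj _ (τ * finRotate (m + 1) ^ k) (Nat.lt_floor_add_one _)
  rw [cj_rot, hγ] at h1
  obtain ⟨s, hs⟩ := ENat.ne_top_iff_exists.1 (ne_top_of_le_ne_top (ENat.coe_ne_top _) h1)
  refine ⟨s, hs.symm, ?_⟩
  have n0 : (0 : ℝ) ≤ (m + 1 : ℕ) := Nat.cast_nonneg _
  have c1 := mul_le_mul_of_nonneg_right (le_max_left C 10) n0
  have c2 := mul_le_mul_of_nonneg_right (le_max_right C 10) n0
  rw [← hs, Nat.cast_le] at h1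
  have h2 : (s : ℝ) ≤ invs (τ * finRotate (m + 1) ^ k) :=
    (Nat.cast_le.2 h1).trans (Nat.floor_le (W_nonneg _ _))
  obtain ⟨σ, hσ⟩ := lower m
  have h3 : (Gamma (m + 1)).edist (cj σ) (cj 1) ≤ s := by
    rw [SimpleGraph.edist_comm, hs]
    exact SimpleGraph.edist_le_eccent
  obtain ⟨p, hp⟩ := SimpleGraph.exists_walk_of_edist_ne_top
    (ne_top_of_le_ne_top (ENat.coe_ne_top _) h3)
  rw [← hp, Nat.cast_le] at h3
  obtain ⟨ρ, h4, h5⟩ := walk_cj p 1 rfl
  obtain ⟨j, hj, rfl⟩ := cj_inj h4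
  have h6 := hσ j hj
  have h7 : (p.length : ℝ) ≤ s := Nat.cast_le.2 h3
  rw [invs_one] at h5
  rw [abs_le]
  constructor <;> linarith

end Pool.Agent.P.MP_8de615_co
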